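import Mathlib

set_option autoImplicit false

namespace Pool.Agent.W816.PB8

/-- exponent of the smallest prime factor -/
def V (n : ℕ) : ℕ := n.factorization n.minFac

theorem V_pow (a k : ℕ) (hk : k ≠ 0) : V (a ^ k) = k * V a := by
  unfold V
  rw [Nat.pow_minFac hk, Nat.factorization_pow]
  simp

theorem V_pos (a : ℕ) (ha : 1 < a) : 0 < V a := by
  unfold V
  have hp : a.minFac.Prime := Nat.minFac_prime (by omega)
  exact hp.factorization_pos_of_dvd (by omega) (Nat.minFac_dvd a)

/-- the part of `m` prime to `q` -/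
def U (q m : ℕ) : ℕ := m / q ^ m.factorization q

theorem U_mul (q a b : ℕ) : U q (a * b) = U q a * U q b := Nat.ordCompl_mul a b q

theorem U_of_not_dvd (q m : ℕ) (h : ¬ q ∣ m) : U q m = m := by
  unfold U
  rw [Nat.factorization_eq_zero_of_not_dvd h]
  simp

theorem U_coprime (q m : ℕ) (hq : q.Prime) (hm : m ≠ 0) : Nat.Coprime q (U q m) :=
  Nat.coprime_ordCompl hq hm

/-- comparing the parts prime to `q` of the exponents of `a` and of `a ^ (b + 1)` -/
theorem key (q M a b : ℕ) (hq : q.Prime) (ha : 1 < a)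
    (hqM : ∀ p : ℕ, p.Prime → p ∣ M → p = q)
    (h : U q (V a) % M = U q (V (a ^ (b + 1))) % M) : U q (b + 1) ≡ 1 [MOD M] := by
  rw [V_pow a (b + 1) (Nat.succ_ne_zero b), U_mul] at h
  have hc : Nat.Coprime M (U q (V a)) := by
    rw [Nat.coprime_comm]
    apply Nat.Coprime.symm
    by_contra hne
    obtain ⟨p, hp, h1, h2⟩ := Nat.Prime.not_coprime_iff_dvd.1 hne
    have : p = q := hqM p hp h1
    subst this
    have h3 := U_coprime p (V a) hp (by have := V_pos a ha; omega)
    have h4 : p ∣ Nat.gcd p (U p (V a)) := Nat.dvd_gcd dvd_rfl h2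
    rw [h3] at h4
    exact hp.one_lt.ne' (Nat.dvd_one.1 h4)
  have h5 : U q (b + 1) * U q (V a) ≡ 1 * U q (V a) [MOD M] := by
    rw [one_mul]
    exact h.symm
  exact Nat.ModEq.cancel_right_of_coprime hc h5

theorem exists_fin {α : Type} [Fintype α] (c : ℕ → α) :
    ∃ (k : ℕ) (c' : ℕ → Fin k), ∀ m n : ℕ, c' m = c' n → c m = c n :=
  ⟨Fintype.card α, fun n => Fintype.equivFin α (c n),
    fun _ _ h => (Fintype.equivFin α).injective h⟩

end Pool.Agent.W816.PB8
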