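import Pool.Agent.W816.PB8.Base

set_option autoImplicit false

namespace Pool.Agent.W816.PB8

/-- `n` is a perfect `d`-th power -/
def IsPow (d n : ℕ) : Prop := ∃ t : ℕ, n = t ^ d

theorem isPow_of_dvd (a b d : ℕ) (h : d ∣ b + 1) : IsPow d (a ^ (b + 1)) := by
  obtain ⟨e, he⟩ := h
  exact ⟨a ^ e, by rw [he, ← pow_mul, mul_comm e d]⟩

theorem lift_pow (q b t j : ℕ) (hq : q.Prime) (hodd : q ≠ 2) (hb : b = t ^ (q ^ j))
    (h : q ∣ b + 1) : q ^ (j + 1) ∣ b + 1 := by
  haveI : Fact q.Prime := ⟨hq⟩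
  have hm1 : (b : ZMod q) = -1 := by
    have : ((b + 1 : ℕ) : ZMod q) = 0 := (ZMod.natCast_eq_zero_iff _ _).2 h
    push_cast at this
    linear_combination this
  have ht : (t : ZMod q) = -1 := by
    rw [← hm1, hb]
    push_cast
    rw [ZMod.pow_card_pow]
  have hd : ((q : ℕ) : ℤ) ∣ (t : ℤ) - (-1) := by
    have : (((t + 1 : ℕ) : ℤ) : ZMod q) = 0 := by
      push_cast; rw [ht]; ring
    have h2 := (ZMod.intCast_zmod_eq_zero_iff_dvd _ q).1 this
    push_cast at h2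
    simpa using h2
  have h3 := dvd_sub_pow_of_dvd_sub hd j
  have hoddq : Odd (q ^ j) := (hq.odd_of_ne_two hodd).pow
  rw [hoddq.neg_one_pow] at h3
  have h4 : ((q ^ (j + 1) : ℕ) : ℤ) ∣ ((b + 1 : ℕ) : ℤ) := by
    push_cast
    rw [hb]
    push_cast
    simpa using h3
  exact_mod_cast h4

theorem odd_case (q b K : ℕ) (c : ℕ) (a : ℕ) (hq : q.Prime) (hodd : q ≠ 2) (hc : c = a ^ (b + 1))
    (hpow : ∀ j : ℕ, j ≤ K → IsPow (q ^ j) c → IsPow (q ^ j) b) (h : q ∣ b + 1) :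
    ∀ j : ℕ, j ≤ K → q ^ j ∣ b + 1 := by
  intro j
  induction j with
  | zero => intro _; simp
  | succ j ih =>
    intro hj
    have h1 := ih (by omega)
    have h2 : IsPow (q ^ j) c := by
      rw [hc]; exact isPow_of_dvd a b _ h1
    obtain ⟨t, ht⟩ := hpow j (by omega) h2
    exact lift_pow q b t j hq hodd ht h

theorem even_case (a b : ℕ) (ha : 1 < a) (hodd : ¬ 2 ∣ b)
    (hpow : IsPow 2 (a ^ (b + 1)) → IsPow 2 b)
    (hpar : (V a).factorization 2 % 2 = (V (a ^ (b + 1))).factorization 2 % 2) : False := by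
  have h1 : 2 ∣ b + 1 := by omega
  obtain ⟨t, ht⟩ := hpow (isPow_of_dvd a b 2 h1)
  have htodd : t % 2 = 1 := by
    rcases Nat.mod_two_eq_zero_or_one t with h | h
    · exfalso
      apply hodd
      rw [ht]
      exact Dvd.dvd.trans (Nat.dvd_of_mod_eq_zero h) (dvd_pow_self t (by norm_num))
    · exact h
  obtain ⟨s, hs⟩ : ∃ s, t = 2 * s + 1 := ⟨t / 2, by omega⟩
  have hb1 : b + 1 = 2 * (2 * (s * s + s) + 1) := by
    rw [ht, hs]; ring
  have hf : (b + 1).factorization 2 = 1 := by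
    rw [hb1, Nat.factorization_mul (by norm_num) (by omega)]
    have h2 : (2 * (s * s + s) + 1).factorization 2 = 0 :=
      Nat.factorization_eq_zero_of_not_dvd (by omega)
    rw [Finsupp.add_apply, h2, Nat.prime_two.factorization_self]
  rw [V_pow a (b + 1) (Nat.succ_ne_zero b),
    Nat.factorization_mul (Nat.succ_ne_zero b) (V_pos a ha).ne', Finsupp.add_apply, hf] at hpar
  omega

theorem cong_aux (K : ℕ) (hK : 2 ≤ K) : ∃ (k : ℕ) (c : ℕ → Fin k), ∀ a b : ℕ, 1 < a →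
    c a = c b → c a = c (a ^ (b + 1)) →
    (a % (K.factorial ^ K) = b % (K.factorial ^ K)) ∧ 2 ^ K ∣ b ∧
    ∀ q : ℕ, q.Prime → q ≤ K → q ^ K ∣ b ∨ q ^ K ∣ b + 1 := by
  classical
  set M : ℕ := K.factorial ^ K with hM
  have hM0 : 0 < M := by positivity
  obtain ⟨k, c, hc⟩ := exists_fin (α := (Fin (K + 1) → Fin M) × Fin M ×
      (Fin (K + 1) → Fin (K + 1) → Bool) × Fin 2)
    (fun n => (fun q => ⟨U q.1 (V n) % M, Nat.mod_lt _ hM0⟩, ⟨n % M, Nat.mod_lt _ hM0⟩,
      fun q j => decide (IsPow (q.1 ^ j.1) n),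
      ⟨(V n).factorization 2 % 2, Nat.mod_lt _ (by norm_num)⟩))
  refine ⟨k, c, ?_⟩
  intro a b ha hab hac
  have e1 := hc _ _ hab
  have e2 := hc _ _ hac
  have hbc : c b = c (a ^ (b + 1)) := hab.symm.trans hac
  have e3 := hc _ _ hbc
  simp only [Prod.mk.injEq] at e1 e2 e3
  have hres : a % M = b % M := by
    have := e1.2.1
    simpa using congrArg Fin.val this
  have hU : ∀ q : ℕ, q ≤ K → U q (V a) % M = U q (V (a ^ (b + 1))) % M := by
    intro q hq
    have := congrFun e2.1 ⟨q, by omega⟩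
    simpa using congrArg Fin.val this
  have hP : ∀ q j : ℕ, q ≤ K → j ≤ K → (IsPow (q ^ j) (a ^ (b + 1)) → IsPow (q ^ j) b) := by
    intro q j hq hj h
    have := congrFun (congrFun e3.2.2.1 ⟨q, by omega⟩) ⟨j, by omega⟩
    have h2 : decide (IsPow (q ^ j) b) = true := by
      rw [this]; exact decide_eq_true h
    exact of_decide_eq_true h2
  have hpar : (V a).factorization 2 % 2 = (V (a ^ (b + 1))).factorization 2 % 2 := by
    have := e2.2.2.2
    simpa using congrArg Fin.val this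
  have hmain : ∀ q : ℕ, q.Prime → q ≤ K → ¬ q ∣ b + 1 → q ^ K ∣ b := by
    intro q hq hqK hnd
    have hqM : q ^ K ∣ M := by
      rw [hM]; exact pow_dvd_pow_of_dvd ((hq.dvd_factorial).2 hqK) K
    have h1 : U q (V a) % (q ^ K) = U q (V (a ^ (b + 1))) % (q ^ K) := by
      have : U q (V a) ≡ U q (V (a ^ (b + 1))) [MOD M] := hU q hqK
      exact this.of_dvd hqM
    have h2 := key q (q ^ K) a b hq ha
      (fun p hp hd => (Nat.prime_dvd_prime_iff_eq hp hq).1 (hp.dvd_of_dvd_pow hd)) h1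
    rw [U_of_not_dvd q (b + 1) hnd] at h2
    have h3 : b + 1 ≡ 0 + 1 [MOD q ^ K] := by simpa using h2
    exact (Nat.modEq_zero_iff_dvd).1 (Nat.ModEq.add_right_cancel' 1 h3)
  have hb2 : 2 ∣ b := by
    by_contra hnd
    refine even_case a b ha hnd ?_ hpar
    have := hP 2 1 hK (by omega)
    simpa using this
  refine ⟨hres, hmain 2 Nat.prime_two hK (by omega), ?_⟩
  intro q hq hqK
  by_cases hd : q ∣ b + 1
  · right
    have hq2 : q ≠ 2 := by rintro rfl; omega
    exact odd_case q b K _ a hq hq2 rfl (fun j hj => hP q j hqK hj) hd K le_rfl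
  · left
    exact hmain q hq hqK hd

end Pool.Agent.W816.PB8
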