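import Pool.Agent.W816.PB8.Base

set_option autoImplicit false

namespace Pool.Agent.W816.PB8

/-- a prime `q = 7 mod 8` for which all primes up to `N` are squares -/
theorem exists_prime (N : ℕ) : ∃ q : ℕ, q.Prime ∧ N < q ∧ q % 8 = 7 ∧
    ∀ p : ℕ, p.Prime → p ≤ N → IsSquare (p : ZMod q) := by
  set Q : ℕ := 8 * N.factorial with hQ
  have hQ0 : 0 < Q := by positivity
  haveI : NeZero Q := ⟨hQ0.ne'⟩
  obtain ⟨q, hqN, hqp, hqm⟩ := Nat.forall_exists_prime_gt_and_eq_mod
    (q := Q) (a := (-1 : ZMod Q)) (isUnit_one.neg) (N + 2)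
  have hdvd : Q ∣ q + 1 := by
    rw [← ZMod.natCast_eq_zero_iff]
    push_cast
    rw [hqm]; ring
  have h8 : 8 ∣ q + 1 := (Dvd.intro _ hQ.symm).trans hdvd
  have hq8 : q % 8 = 7 := by omega
  refine ⟨q, hqp, by omega, hq8, ?_⟩
  intro p hp hpN
  haveI : Fact p.Prime := ⟨hp⟩
  haveI : Fact q.Prime := ⟨hqp⟩
  have hpq : p ≠ q := by omega
  have hpd : p ∣ q + 1 := by
    apply Dvd.dvd.trans _ hdvd
    rw [hQ]
    exact Dvd.dvd.mul_left ((hp.dvd_factorial).2 hpN) 8
  rcases hp.eq_two_or_odd with h2 | hodd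
  · subst h2
    have := (ZMod.exists_sq_eq_two_iff (p := q) (by omega)).2 (Or.inr hq8)
    exact_mod_cast this
  · have hqm1 : (q : ZMod p) = -1 := by
      have : ((q + 1 : ℕ) : ZMod p) = 0 := (ZMod.natCast_eq_zero_iff _ _).2 hpd
      push_cast at this
      linear_combination this
    rcases Nat.odd_mod_four_iff.1 hodd with h1 | h3
    · have hiff := ZMod.exists_sq_eq_prime_iff_of_mod_four_eq_one (p := p) (q := q) h1 (by omega)
      apply hiff.1
      rw [hqm1]
      exact ZMod.exists_sq_eq_neg_one_iff.2 (by omega)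
    · have hiff := ZMod.exists_sq_eq_prime_iff_of_mod_four_eq_three (p := q) (q := p)
        (by omega) h3 hpq.symm
      apply hiff.2
      rw [hqm1]
      intro hs
      exact (ZMod.exists_sq_eq_neg_one_iff.1 hs) h3

theorem smooth_isSquare (N q : ℕ) (hq : ∀ p : ℕ, p.Prime → p ≤ N → IsSquare (p : ZMod q)) :
    ∀ b : ℕ, (∀ p : ℕ, p.Prime → p ∣ b → p ≤ N) → IsSquare (b : ZMod q) := by
  intro b
  induction b using Nat.recOnMul with
  | zero => intro _; exact ⟨0, by simp⟩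
  | one => intro _; exact ⟨1, by simp⟩
  | prime p hp => intro h; exact hq p hp (h p hp dvd_rfl)
  | mul a b iha ihb =>
    intro h
    have h1 := iha (fun p hp hd => h p hp (hd.mul_right b))
    have h2 := ihb (fun p hp hd => h p hp (hd.mul_left a))
    push_cast
    exact h1.mul h2

theorem smooth (N : ℕ) : ∃ (k : ℕ) (c : ℕ → Fin k), ∀ a b : ℕ, 1 < a → 1 ≤ b →
    (∀ p : ℕ, p.Prime → p ∣ b → p ≤ N) → c a ≠ c (a ^ (b + 1)) := by
  obtain ⟨q, hqp, hNq, hq8, hsq⟩ := exists_prime N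
  haveI : Fact q.Prime := ⟨hqp⟩
  refine ⟨q, fun n => ⟨U q (V n) % q, Nat.mod_lt _ hqp.pos⟩, ?_⟩
  intro a b ha hb hbN heq
  have h0 : U q (V a) % q = U q (V (a ^ (b + 1))) % q := by
    simpa using congrArg Fin.val heq
  have h1 := key q q a b hqp ha
    (fun p hp hd => (Nat.prime_dvd_prime_iff_eq hp hqp).1 hd) h0
  have hqb : ¬ q ∣ b := by
    intro hd
    have := hbN q hqp hd
    omega
  have hqb1 : ¬ q ∣ b + 1 := by
    intro hd
    have hs := smooth_isSquare N q hsq b hbN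
    have hm1 : (b : ZMod q) = -1 := by
      have : ((b + 1 : ℕ) : ZMod q) = 0 := (ZMod.natCast_eq_zero_iff _ _).2 hd
      push_cast at this
      linear_combination this
    rw [hm1] at hs
    have := ZMod.exists_sq_eq_neg_one_iff.1 hs
    omega
  rw [U_of_not_dvd q (b + 1) hqb1] at h1
  apply hqb
  have h2 : b + 1 ≡ 0 + 1 [MOD q] := by simpa using h1
  have h3 : b ≡ 0 [MOD q] := Nat.ModEq.add_right_cancel' 1 h2
  exact (Nat.modEq_zero_iff_dvd).1 h3

end Pool.Agent.W816.PB8
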