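import Pool.Agent.W816.PB8.Base

set_option autoImplicit false

namespace Pool.Agent.W816.PB8

/-- iterated logarithm -/
def T (n : ℕ) : ℕ := if h : n ≤ 1 then 0 else T (Nat.log 2 n) + 1
  termination_by n
  decreasing_by exact Nat.log_lt_of_lt_pow (by omega) (Nat.lt_two_pow_self)

theorem T_le_one (n : ℕ) (h : n ≤ 1) : T n = 0 := by
  rw [T, dif_pos h]

theorem T_of_two_le (n : ℕ) (h : 2 ≤ n) : T n = T (Nat.log 2 n) + 1 := by
  rw [T, dif_neg (by omega)]

theorem T_mono : ∀ n m : ℕ, m ≤ n → T m ≤ T n := by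
  intro n
  induction n using Nat.strong_induction_on with
  | _ n ih =>
    intro m hm
    by_cases h : m ≤ 1
    · rw [T_le_one m h]; exact Nat.zero_le _
    · rw [T_of_two_le m (by omega), T_of_two_le n (by omega)]
      apply Nat.succ_le_succ
      apply ih _ _ _ (Nat.log_mono_right hm)
      exact Nat.log_lt_of_lt_pow (by omega) (Nat.lt_two_pow_self)

theorem T_two_pow (b : ℕ) (hb : 1 ≤ b) : T (2 ^ b) = T b + 1 := by
  rw [T_of_two_le _ (by
    calc 2 = 2 ^ 1 := by norm_num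
      _ ≤ 2 ^ b := Nat.pow_le_pow_right (by norm_num) hb)]
  rw [Nat.log_pow (by norm_num)]

theorem iter_pos (b : ℕ) (hb : 1 ≤ b) : ∀ j : ℕ, 1 ≤ (fun t : ℕ => 2 ^ t)^[j] b := by
  intro j
  induction j with
  | zero => simpa using hb
  | succ j ih =>
    rw [Function.iterate_succ_apply']
    exact Nat.one_le_two_pow

theorem T_iter (b : ℕ) (hb : 1 ≤ b) : ∀ j : ℕ, T ((fun t : ℕ => 2 ^ t)^[j] b) = T b + j := by
  intro j
  induction j with
  | zero => rfl
  | succ j ih =>
    rw [Function.iterate_succ_apply']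
    show T (2 ^ _) = _
    rw [T_two_pow _ (iter_pos b hb j), ih]
    ring

theorem mul_le_two_pow (b : ℕ) (hb : 5 ≤ b) : b * (b + 1) ≤ 2 ^ b := by
  induction b, hb using Nat.le_induction with
  | base => norm_num
  | succ b hb ih =>
    have : (b + 1) * (b + 1 + 1) ≤ 2 * (b * (b + 1)) := by nlinarith
    calc (b + 1) * (b + 1 + 1) ≤ 2 * (b * (b + 1)) := this
      _ ≤ 2 * 2 ^ b := by omega
      _ = 2 ^ (b + 1) := by ring

theorem log_eq (n k : ℕ) (h1 : 2 ^ k ≤ n) (h2 : n < 2 ^ (k + 1)) : Nat.log 2 n = k :=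
  Nat.log_eq_of_pow_le_of_lt_pow h1 h2

theorem T_mul (b : ℕ) (hb : 2 ≤ b) : T (b * (b + 1)) ≤ T b + 1 := by
  have t1 : T 1 = 0 := T_le_one 1 le_rfl
  have t2 : T 2 = 1 := by
    rw [T_of_two_le 2 le_rfl, log_eq 2 1 (by norm_num) (by norm_num), t1]
  have t3 : T 3 = 1 := by
    rw [T_of_two_le 3 (by norm_num), log_eq 3 1 (by norm_num) (by norm_num), t1]
  have t4 : T 4 = 2 := by
    rw [T_of_two_le 4 (by norm_num), log_eq 4 2 (by norm_num) (by norm_num), t2]
  by_cases h : 5 ≤ b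
  · calc T (b * (b + 1)) ≤ T (2 ^ b) := T_mono _ _ (mul_le_two_pow b h)
      _ = T b + 1 := T_two_pow b (by omega)
  · have : b = 2 ∨ b = 3 ∨ b = 4 := by omega
    rcases this with rfl | rfl | rfl
    · rw [T_of_two_le (2 * (2 + 1)) (by norm_num), log_eq _ 2 (by norm_num) (by norm_num)]
    · rw [T_of_two_le (3 * (3 + 1)) (by norm_num), log_eq _ 3 (by norm_num) (by norm_num)]
    · rw [T_of_two_le (4 * (4 + 1)) (by norm_num), log_eq _ 4 (by norm_num) (by norm_num)]

/-- `N + 3` colours force `a` to be larger than the `N` times iterated exponential of `b` -/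
theorem tower (N : ℕ) : ∃ c : ℕ → Fin (N + 3), ∀ a b : ℕ, 1 < a → 1 < b →
    c a = c b → c a = c (a ^ (b + 1)) → (fun t : ℕ => 2 ^ t)^[N] b < a := by
  refine ⟨fun n => ⟨T n % (N + 3), Nat.mod_lt _ (by omega)⟩, ?_⟩
  intro a b ha hb hab hac
  have e1 : T a % (N + 3) = T b % (N + 3) := by simpa using congrArg Fin.val hab
  have e2 : T a % (N + 3) = T (a ^ (b + 1)) % (N + 3) := by simpa using congrArg Fin.val hac
  have key1 : 2 ^ b < a := by
    by_contra hle
    push Not at hle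
    have l1 : T b + 1 ≤ T (a ^ (b + 1)) := by
      calc T b + 1 ≤ T (b + 1) + 1 := Nat.succ_le_succ (T_mono _ _ (by omega))
        _ = T (2 ^ (b + 1)) := (T_two_pow _ (by omega)).symm
        _ ≤ T (a ^ (b + 1)) := T_mono _ _ (Nat.pow_le_pow_left (by omega) _)
    have l2 : T (a ^ (b + 1)) ≤ T b + 2 := by
      calc T (a ^ (b + 1)) ≤ T (2 ^ (b * (b + 1))) := by
            apply T_mono
            rw [pow_mul]
            exact Nat.pow_le_pow_left hle _
        _ = T (b * (b + 1)) + 1 := T_two_pow _ (by nlinarith)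
        _ ≤ T b + 1 + 1 := Nat.succ_le_succ (T_mul b (by omega))
        _ = T b + 2 := by ring
    have e3 : T b ≡ T (a ^ (b + 1)) [MOD N + 3] := e1.symm.trans e2
    have hd := (Nat.modEq_iff_dvd' (by omega)).1 e3
    have := Nat.le_of_dvd (by omega) hd
    omega
  by_contra hle
  push Not at hle
  have l1 : T b + 1 ≤ T a := by
    rw [← T_two_pow b (by omega)]
    exact T_mono _ _ key1.le
  have l2 : T a ≤ T b + N := by
    rw [← T_iter b (by omega) N]
    exact T_mono _ _ hle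
  have e3 : T b ≡ T a [MOD N + 3] := e1.symm
  have hd := (Nat.modEq_iff_dvd' (by omega)).1 e3
  have := Nat.le_of_dvd (by omega) hd
  omega

end Pool.Agent.W816.PB8
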